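import Pool.Agent.Helper14_SN.Stmts
import Pool.Agent.Helper12_RN.Tensor

/-!
# SN, module TRA: from polynomials to tensors of integers
-/

set_option autoImplicit false

noncomputable section

namespace Pool.Agent.SN.H17

open MvPolynomial
open Pool.Agent.Helper12_RN (Layer Certified layer_certified tensor_fun glue)

variable {n : ℕ} {k : Fin n → ℕ}

/-- evaluation at arbitrary input vectors -/
def ev (y : (i : Fin n) → Fin (k i) → ℚ) : {t : Tree n} → {w : ℕ} → Net ℤ k t w → Fin w → ℚ
  | .leaf i, _, .leaf B => fun c => ∑ u, (B c u : ℚ) * y i u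
  | .node _ _, _, .node M N N' => fun c => ∑ a, ∑ b, (M c a b : ℚ) * ev y N a * ev y N' b

theorem ev_of_notMem (y : (i : Fin n) → Fin (k i) → ℚ) (i : Fin n) (z : Fin (k i) → ℚ) :
    {t : Tree n} → {w : ℕ} → (N : Net ℤ k t w) → i ∉ t.leaves → ∀ c,
      ev (Function.update y i z) N c = ev y N c
  | .leaf j, _, .leaf B, h, c => by
    have h1 : j ≠ i := by
      rintro rfl
      exact h (List.mem_singleton_self _)
    simp only [ev]
    rw [Function.update_of_ne h1]
  | .node l r, _, .node M N N', h, c => by
    have h1 : i ∉ l.leaves ∧ i ∉ r.leaves := by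
      simpa [Tree.leaves] using h
    simp only [ev]
    apply Finset.sum_congr rfl
    intro a _
    apply Finset.sum_congr rfl
    intro b _
    rw [ev_of_notMem y i z N h1.1, ev_of_notMem y i z N' h1.2]

theorem ev_add (y : (i : Fin n) → Fin (k i) → ℚ) (i : Fin n) (z z' : Fin (k i) → ℚ) :
    {t : Tree n} → {w : ℕ} → (N : Net ℤ k t w) → t.leaves.Nodup → i ∈ t.leaves → ∀ c,
      ev (Function.update y i (z + z')) N c =
        ev (Function.update y i z) N c + ev (Function.update y i z') N c
  | .leaf j, _, .leaf B, _, h, c => by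
    have h1 : i = j := List.mem_singleton.1 h
    subst h1
    simp only [ev, Function.update_self, Pi.add_apply, mul_add, Finset.sum_add_distrib]
  | .node l r, _, .node M N N', hd, h, c => by
    have hd' : l.leaves.Nodup ∧ r.leaves.Nodup ∧ l.leaves.Disjoint r.leaves := by
      simpa [Tree.leaves] using List.nodup_append'.1 hd
    have h1 : i ∈ l.leaves ∨ i ∈ r.leaves := List.mem_append.1 h
    simp only [ev]
    rcases h1 with h1 | h1
    · have h2 : i ∉ r.leaves := fun h3 => hd'.2.2 h1 h3
      rw [← Finset.sum_add_distrib]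
      apply Finset.sum_congr rfl
      intro a _
      rw [← Finset.sum_add_distrib]
      apply Finset.sum_congr rfl
      intro b _
      rw [ev_add y i z z' N hd'.1 h1, ev_of_notMem y i _ N' h2, ev_of_notMem y i _ N' h2,
        ev_of_notMem y i _ N' h2]
      ring
    · have h2 : i ∉ l.leaves := fun h3 => hd'.2.2 h3 h1
      rw [← Finset.sum_add_distrib]
      apply Finset.sum_congr rfl
      intro a _
      rw [← Finset.sum_add_distrib]
      apply Finset.sum_congr rfl
      intro b _
      rw [ev_add y i z z' N' hd'.2.1 h1, ev_of_notMem y i _ N h2, ev_of_notMem y i _ N h2,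
        ev_of_notMem y i _ N h2]
      ring

theorem ev_smul (y : (i : Fin n) → Fin (k i) → ℚ) (i : Fin n) (q : ℚ) (z : Fin (k i) → ℚ) :
    {t : Tree n} → {w : ℕ} → (N : Net ℤ k t w) → t.leaves.Nodup → i ∈ t.leaves → ∀ c,
      ev (Function.update y i (q • z)) N c = q * ev (Function.update y i z) N c
  | .leaf j, _, .leaf B, _, h, c => by
    have h1 : i = j := List.mem_singleton.1 h
    subst h1
    simp only [ev, Function.update_self, Pi.smul_apply, smul_eq_mul, Finset.mul_sum]
    apply Finset.sum_congr rfl
    intro u _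
    ring
  | .node l r, _, .node M N N', hd, h, c => by
    have hd' : l.leaves.Nodup ∧ r.leaves.Nodup ∧ l.leaves.Disjoint r.leaves := by
      simpa [Tree.leaves] using List.nodup_append'.1 hd
    have h1 : i ∈ l.leaves ∨ i ∈ r.leaves := List.mem_append.1 h
    simp only [ev]
    rcases h1 with h1 | h1
    · have h2 : i ∉ r.leaves := fun h3 => hd'.2.2 h1 h3
      rw [Finset.mul_sum]
      apply Finset.sum_congr rfl
      intro a _
      rw [Finset.mul_sum]
      apply Finset.sum_congr rfl
      intro b _
      rw [ev_smul y i q z N hd'.1 h1, ev_of_notMem y i _ N' h2, ev_of_notMem y i _ N' h2]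
      ring
    · have h2 : i ∉ l.leaves := fun h3 => hd'.2.2 h3 h1
      rw [Finset.mul_sum]
      apply Finset.sum_congr rfl
      intro a _
      rw [Finset.mul_sum]
      apply Finset.sum_congr rfl
      intro b _
      rw [ev_smul y i q z N' hd'.2.1 h1, ev_of_notMem y i _ N h2, ev_of_notMem y i _ N h2]
      ring

/-- the multilinear map computed by a sum of networks -/
def phi {c : ℕ} (N : Fin c → Term ℤ k) (hN : ∀ j, (N j).1.Full) :
    MultilinearMap ℚ (fun i => Fin (k i) → ℚ) ℚ where
  toFun y := ∑ j, ev y (N j).2 0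
  map_update_add' {inst} y i z z' := by
    have : inst = instDecidableEqFin n := Subsingleton.elim _ _
    subst this
    rw [← Finset.sum_add_distrib]
    apply Finset.sum_congr rfl
    intro j _
    exact ev_add y i z z' (N j).2 (hN j).1 ((hN j).2 i) 0
  map_update_smul' {inst} y i q z := by
    have : inst = instDecidableEqFin n := Subsingleton.elim _ _
    subst this
    rw [smul_eq_mul, Finset.mul_sum]
    apply Finset.sum_congr rfl
    intro j _
    exact ev_smul y i q z (N j).2 (hN j).1 ((hN j).2 i) 0

theorem expand (f : MultilinearMap ℚ (fun i => Fin (k i) → ℚ) ℚ) (y : (i : Fin n) → Fin (k i) → ℚ) :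
    f y = ∑ v : (∀ i, Fin (k i)), f (fun i => Pi.single (v i) 1) * ∏ i, y i (v i) := by
  classical
  have h1 : y = fun i => ∑ u, y i u • (Pi.single u (1 : ℚ) : Fin (k i) → ℚ) := by
    funext i
    exact pi_eq_sum_univ' (y i)
  have h2 : f y = f (fun i => ∑ u, y i u • (Pi.single u (1 : ℚ) : Fin (k i) → ℚ)) := congrArg f h1
  rw [h2, MultilinearMap.map_sum]
  apply Finset.sum_congr rfl
  intro v _
  rw [MultilinearMap.map_smul_univ f (fun i => y i (v i)) (fun i => Pi.single (v i) 1), smul_eq_mul,
    mul_comm]

theorem val_mulLeaf (G : (i : Fin n) → Fin (k i) → Fin (k i) → ℤ) (v : (i : Fin n) → Fin (k i)) :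
    {t : Tree n} → {w : ℕ} → (N : Net ℤ k t w) → ∀ c,
      (((N.mulLeaf G).val (fun i => some (v i)) c : ℤ) : ℚ) = ev (fun i u => (G i u (v i) : ℚ)) N c
  | .leaf j, _, .leaf B, c => by
    simp only [Net.mulLeaf, Net.val, ev]
    push_cast
    rfl
  | .node l r, _, .node M N N', c => by
    simp only [Net.mulLeaf, Net.val, ev]
    push_cast
    apply Finset.sum_congr rfl
    intro a _
    apply Finset.sum_congr rfl
    intro b _
    rw [val_mulLeaf G v N, val_mulLeaf G v N']

theorem aeval_poly {σ : Type} (L : Fin n → Layer σ ℤ) (x : σ → ℚ) :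
    {t : Tree n} → {w : ℕ} → (N : Net ℤ (fun i => (L i).K) t w) → ∀ c,
      aeval x (poly L N c) = ev (k := fun i => (L i).K) (fun i u => aeval x ((L i).g u)) N c
  | .leaf j, _, .leaf B, c => by
    simp only [poly, ev, map_sum, map_mul, aeval_C]
    rfl
  | .node l r, _, .node M N N', c => by
    simp only [poly, ev, map_sum, map_mul, aeval_C]
    apply Finset.sum_congr rfl
    intro a _
    apply Finset.sum_congr rfl
    intro b _
    rw [aeval_poly L x N, aeval_poly L x N']
    rfl

/-- the kernel of the Gram matrix -/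
theorem gram_ker {σ : Type} {w : ℕ} {P : Fin w → MvPolynomial σ ℤ} {G : Fin w → Fin w → ℤ}
    (hc : Certified P G) (b : Fin w → ℚ) :
    (∀ x : σ → ℚ, ∑ u, b u * aeval x (P u) = 0) ↔ ∀ y, ∑ u, b u * (G u y : ℚ) = 0 := by
  obtain ⟨S, _, wt, h, hwt, hG, hb⟩ := hc
  rw [hb b]
  have e1 : ∀ y, ∑ u, b u * (G u y : ℚ) = ∑ s, wt s * h y s * ∑ u, b u * h u s := by
    intro y
    have e2 : ∀ u, b u * (G u y : ℚ) = ∑ s, wt s * h y s * (b u * h u s) := by
      intro u
      rw [hG, Finset.mul_sum]
      apply Finset.sum_congr rfl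
      intro s _
      ring
    rw [Finset.sum_congr rfl (fun u _ => e2 u), Finset.sum_comm]
    apply Finset.sum_congr rfl
    intro s _
    rw [Finset.mul_sum]
  constructor
  · intro h1 y
    rw [e1]
    apply Finset.sum_eq_zero
    intro s _
    rw [h1 s, mul_zero]
  · intro h1
    have h2 : ∑ y, b y * ∑ u, b u * (G u y : ℚ) = 0 :=
      Finset.sum_eq_zero fun y _ => by rw [h1 y, mul_zero]
    have h3 : ∑ y, b y * ∑ u, b u * (G u y : ℚ) = ∑ s, wt s * (∑ u, b u * h u s) ^ 2 := by
      simp only [e1, Finset.mul_sum]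
      rw [Finset.sum_comm]
      apply Finset.sum_congr rfl
      intro s _
      rw [pow_two, Finset.sum_mul, Finset.mul_sum]
      apply Finset.sum_congr rfl
      intro y _
      rw [Finset.mul_sum, Finset.mul_sum]
      apply Finset.sum_congr rfl
      intro u _
      ring
    rw [h3, Finset.sum_eq_zero_iff_of_nonneg (fun s _ => mul_nonneg (hwt s).le (sq_nonneg _))] at h2
    intro s
    rcases mul_eq_zero.1 (h2 s (Finset.mem_univ s)) with h4 | h4
    · exact absurd h4 (hwt s).ne'
    · exact pow_eq_zero_iff (two_ne_zero) |>.1 h4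

/-- TRA -/
theorem tra : TraStmt := by
  classical
  intro σ n c L hL hdisj N hN
  obtain ⟨Φ, hΦ⟩ : ∃ Φ, Φ = phi N hN := ⟨_, rfl⟩
  have hΦv : ∀ y, Φ y = ∑ j, ev y (N j).2 0 := fun y => by rw [hΦ]; rfl
  -- the left hand side
  have hleft : (∑ j, poly L (N j).2 0 = 0) ↔
      ∀ x : Fin n → (σ → ℚ), Φ (fun i u => aeval (x i) ((L i).g u)) = 0 := by
    rw [Pool.Agent.Helper12_RN.eq_zero_iff]
    have e1 : ∀ z : σ → ℚ, aeval z (∑ j, poly L (N j).2 0) = Φ (fun i u => aeval z ((L i).g u)) := by
      intro z
      rw [map_sum, hΦv]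
      apply Finset.sum_congr rfl
      intro j _
      exact aeval_poly L z (N j).2 0
    constructor
    · intro h x
      obtain ⟨z, hz⟩ := glue (k := ℚ) (fun i => (L i).vars) (fun i j hij => hdisj i j hij) x
      have h1 := h z
      rw [e1] at h1
      rw [← h1]
      congr 1
      funext i u
      have h2 := hz i (map (Int.castRingHom ℚ) ((L i).g u)) (fun s hs => by
        exact (L i).vars_g u s (vars_map _ _ hs))
      rw [eval_map, eval_map] at h2
      exact h2.symm
    · intro h z
      rw [e1]
      exact h fun _ => z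
  -- the right hand side
  have hright : (∀ s : PA (fun i => (L i).K), s.Total →
      ∑ j, ((N j).2.mulLeaf fun i => (L i).gram).val s 0 = 0) ↔
      ∀ y : ∀ i, Fin (L i).K, Φ (fun i u => ((L i).gram u (y i) : ℚ)) = 0 := by
    have e1 : ∀ y : ∀ i, Fin (L i).K, Φ (fun i u => ((L i).gram u (y i) : ℚ)) =
        ((∑ j, ((N j).2.mulLeaf fun i => (L i).gram).val (fun i => some (y i)) 0 : ℤ) : ℚ) := by
      intro y
      rw [hΦv]
      push_cast
      apply Finset.sum_congr rfl
      intro j _
      exact (val_mulLeaf (fun i => (L i).gram) y (N j).2 0).symm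
    constructor
    · intro h y
      rw [e1, h (fun i => some (y i)) (fun i => rfl), Int.cast_zero]
    · intro h s hs
      have h1 : s = fun i => some ((s i).get (hs i)) := by
        funext i
        rw [Option.some_get]
      have h2 := h fun i => (s i).get (hs i)
      rw [e1, Int.cast_eq_zero, ← h1] at h2
      exact h2
  rw [hleft, hright]
  by_cases hne : ∃ i, (L i).K = 0
  · obtain ⟨i, hi⟩ := hne
    have h0 : ∀ y, Φ y = 0 := by
      intro y
      apply Φ.map_coord_zero i
      funext u
      exact absurd u.2 (by omega)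
    exact ⟨fun _ y => h0 _, fun _ x => h0 _⟩
  · push Not at hne
    have hnon : ∀ i, Nonempty (Fin (L i).K) := fun i => ⟨⟨0, Nat.pos_of_ne_zero (hne i)⟩⟩
    have key := tensor_fun (k := ℚ) (β := Fin n) (ι := fun i => Fin (L i).K)
      (X := fun _ => σ → ℚ) (Y := fun i => Fin (L i).K)
      (fun i u x => aeval x ((L i).g u)) (fun i u y => ((L i).gram u y : ℚ))
      (fun i b => gram_ker (layer_certified (L i) (hL i)) b)
      (fun v => Φ (fun i => Pi.single (v i) 1))
    constructor
    · intro h y
      rw [expand]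
      apply key.1
      intro x
      rw [← expand Φ (fun i u => aeval (x i) ((L i).g u))]
      exact h x
    · intro h x
      rw [expand]
      apply key.2
      intro y
      rw [← expand Φ (fun i u => ((L i).gram u (y i) : ℚ))]
      exact h y

end Pool.Agent.SN.H17
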